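import Pool.Agent.H135R2.VS.Conn

set_option autoImplicit false
set_option linter.unusedSectionVars false

/-!
# Pairs linked in `ℝ^(d+1)` are globally linked in `ℝ^d`

Let `(G, p)` be generic in `ℝ^d`, let `(G, q)` be equivalent, and let `f` be a coordinate function of
`q`. Let `g : V → ℝ` be generic over `ℚ(p, f)`. For `c = 1, 2` the realisation `(p, f + c g)` in
`ℝ^(d+1)` is generic, so `G + uv` has a stress `ω_c` there with value `1` at `uv`. The difference of
any two stresses of `(G + uv, p)` with value `1` at `uv` is a stress of `(G, p)`, hence of `(G, q)`, and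
annihilates `f`. So the value `B(f, y)` of the energy form of `ω_c` does not depend on `c`, and
`B(f + c g, f) = 0` for `c = 1, 2` gives `B(f, f) = 0`. The sum over the coordinates of `q` gives
`|q u - q v| = |p u - p v|`.
-/

namespace Pool.Agent.N525.LK

open Pool.Agent.H135R2.VS Set

variable {V : Type*} {d : ℕ} [Fintype V] [DecidableEq V]

/-- the row of `uv` is a combination of the rows of `G` at `P` -/
def Lk (G : SimpleGraph V) (u v : V) {d : ℕ} (P : Conf d V) (s : V → V → ℝ) : Prop :=
  (∀ i j, ¬ G.Adj i j → s i j = 0) ∧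
    ∀ a (z : V → ℝ), en s (fun i => P i a) z + (P u a - P v a) * (z u - z v) = 0

theorem en_sub_w (s t : V → V → ℝ) (y z : V → ℝ) :
    en (fun i j => s i j - t i j) y z = en s y z - en t y z := by
  unfold en
  rw [← Finset.sum_sub_distrib]
  refine Finset.sum_congr rfl fun i _ => ?_
  rw [← Finset.sum_sub_distrib]
  exact Finset.sum_congr rfl fun j _ => by ring

theorem Lk.sub {G : SimpleGraph V} {u v : V} {p : Conf d V} {s t : V → V → ℝ}
    (hs : Lk G u v p s) (ht : Lk G u v p t) : Str G p (fun i j => s i j - t i j) := by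
  refine ⟨fun i j hij => by simp only [hs.1 i j hij, ht.1 i j hij, sub_zero], fun a z => ?_⟩
  rw [en_sub_w]
  have h1 := hs.2 a z
  have h2 := ht.2 a z
  linarith

/-- adding a generic coordinate -/
theorem gen_cons {p : Conf d V} (hp : Gen p) {K : SF} (hK : ∀ i a, p i a ∈ K) {h : V → ℝ}
    (hh : AlgebraicIndependent K h) : Gen (fun i => (Fin.cons (h i) (p i) : Fin (d + 1) → ℝ)) := by
  apply algInd_of_der
  intro w
  obtain ⟨D, hD⟩ := exists_der hp (fun i => w (i.1, i.2.succ))
  obtain ⟨D', hD', hv'⟩ := exists_derK hh (fun i => w (i, 0) - D (h i))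
  refine ⟨D + D', ?_⟩
  rintro ⟨i, a⟩
  refine Fin.cases ?_ (fun a => ?_) a
  · simp only [Fin.cons_zero, Derivation.add_apply]
    rw [hv']
    ring
  · simp only [Fin.cons_succ, Derivation.add_apply]
    rw [hD (i, a), hD' _ (hK i a), add_zero]

theorem algInd_affine {K : SF} {f g : V → ℝ} (hf : ∀ i, f i ∈ K) (hg : AlgebraicIndependent K g)
    {c : ℝ} (hc : c ∈ K) (hc0 : c ≠ 0) : AlgebraicIndependent K (fun i => f i + c * g i) := by
  apply algInd_of_derK
  intro w
  obtain ⟨D, hD, hw⟩ := exists_derK hg (fun i => w i / c)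
  refine ⟨D, hD, fun i => ?_⟩
  rw [map_add, hD _ (hf i), Derivation.leibniz, hD _ hc, hw]
  simp only [smul_eq_mul, mul_zero, add_zero, zero_add]
  field_simp

theorem core {G : SimpleGraph V} {u v : V}
    (h : ∀ P : Conf (d + 1) V, Gen P → ∃ s, Lk G u v P s) {p q : Conf d V} (hp : Gen p)
    (hq : ∀ i j, G.Adj i j → fl q q i j = fl p p i j) : fl q q u v = fl p p u v := by
  -- stresses above `p` with a prescribed generic last coordinate
  have step : ∀ (K : SF) (h' : V → ℝ), (∀ i a, p i a ∈ K) → AlgebraicIndependent K h' →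
      ∃ s, Lk G u v p s ∧ ∀ z : V → ℝ, en s h' z + (h' u - h' v) * (z u - z v) = 0 := by
    intro K h' hK hh
    obtain ⟨s, h1, h2⟩ := h _ (gen_cons hp hK hh)
    refine ⟨s, ⟨h1, fun a z => ?_⟩, fun z => ?_⟩
    · have := h2 a.succ z
      simpa only [Fin.cons_succ] using this
    · have := h2 0 z
      simpa only [Fin.cons_zero] using this
  -- the energy form vanishes on the coordinate functions of `q`
  have key : ∀ a s, Lk G u v p s →
      en s (fun i => q i a) (fun i => q i a) + (q u a - q v a) * (q u a - q v a) = 0 := by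
    intro a s hs
    let K : SF := adj ⊥ (range (fun x : V × Fin d => p x.1 x.2) ∪ range (fun i => q i a))
    have hKc : Countable K := countable_adj ((countable_range _).union (countable_range _))
    have hKp : ∀ i b, p i b ∈ K := fun i b => mem_adj _ (Or.inl ⟨(i, b), rfl⟩)
    have hKq : ∀ i, q i a ∈ K := fun i => mem_adj _ (Or.inr ⟨i, rfl⟩)
    obtain ⟨g, -, hg⟩ := exists_algInd (ι := V) (K := K) (U := univ) isOpen_univ ⟨0, trivial⟩
    have h2K : (2 : ℝ) ∈ K := by
      have := K.algebraMap_mem (2 : ℚ)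
      simpa using this
    obtain ⟨s1, t1, e1⟩ := step K _ hKp (algInd_affine hKq hg K.one_mem one_ne_zero)
    obtain ⟨s2, t2, e2⟩ := step K _ hKp (algInd_affine hKq hg h2K two_ne_zero)
    have tr : ∀ t t', Lk G u v p t → Lk G u v p t' → ∀ z,
        en t (fun i => q i a) z = en t' (fun i => q i a) z := by
      intro t t' ht ht' z
      have := ((ht.sub ht').transfer hp hq).2 a z
      rw [en_sub_w] at this
      linarith
    have f1 := e1 (fun i => q i a)
    have f2 := e2 (fun i => q i a)
    have x1 : ∀ (t : V → V → ℝ) (c : ℝ), en t (fun i => q i a + c * g i) (fun i => q i a) =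
        en t (fun i => q i a) (fun i => q i a) + c * en t (fun i => q i a) g := by
      intro t c
      rw [en_symm t (fun i => q i a) g]
      unfold en
      simp only [Finset.mul_sum]
      rw [← Finset.sum_add_distrib]
      refine Finset.sum_congr rfl fun i _ => ?_
      rw [← Finset.sum_add_distrib]
      exact Finset.sum_congr rfl fun j _ => by ring
    rw [x1, tr s1 s t1 hs, tr s1 s t1 hs] at f1
    rw [x1, tr s2 s t2 hs, tr s2 s t2 hs] at f2
    linarith
  have hKc : Countable (adj ⊥ (range (fun x : V × Fin d => p x.1 x.2))) :=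
    countable_adj (countable_range _)
  obtain ⟨g, -, hg⟩ := exists_algInd (ι := V) (K := adj ⊥ (range (fun x : V × Fin d => p x.1 x.2)))
    (U := univ) isOpen_univ ⟨0, trivial⟩
  have hKp : ∀ i b, p i b ∈ adj ⊥ (range (fun x : V × Fin d => p x.1 x.2)) :=
    fun i b => mem_adj _ ⟨(i, b), rfl⟩
  obtain ⟨s, hs, -⟩ := step _ g hKp hg
  have hq' : ∑ i, ∑ j, s i j * fl q q i j + fl q q u v = 0 := by
    rw [sum_fl]
    unfold fl
    rw [← Finset.sum_add_distrib]
    exact Finset.sum_eq_zero fun a _ => key a s hs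
  have hp' : ∑ i, ∑ j, s i j * fl p p i j + fl p p u v = 0 := by
    rw [sum_fl]
    unfold fl
    rw [← Finset.sum_add_distrib]
    exact Finset.sum_eq_zero fun a _ => hs.2 a _
  have he : ∑ i, ∑ j, s i j * fl q q i j = ∑ i, ∑ j, s i j * fl p p i j := by
    refine Finset.sum_congr rfl fun i _ => Finset.sum_congr rfl fun j _ => ?_
    by_cases hij : G.Adj i j
    · rw [hq i j hij]
    · rw [hs.1 i j hij, zero_mul, zero_mul]
  linarith

end Pool.Agent.N525.LK
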